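import Pool.Agent.Helper67.NO.St4

/-!
# Project NO (MP_26be5b_ag), module CPD: the logarithm of a positive automorphism is a derivation
-/

set_option autoImplicit false

namespace Pool.Agent.Helper44.NO

open Pool.Agent.Helper67.NO
open Matrix
open scoped Matrix.Norms.Frobenius ContDiff Topology ComplexOrder

variable {n : Type} [Fintype n] [DecidableEq n]

theorem gact_dact (g X : Matrix n n ℂ) (hg : IsUnit g) (ν : n → Matrix n n ℂ) :
    gact g (dact X ν) = dact (g * X * g⁻¹) (gact g ν) := by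
  have hdet : IsUnit g.det := (Matrix.isUnit_iff_isUnit_det g).1 hg
  have h1 : g⁻¹ * g = 1 := Matrix.nonsing_inv_mul g hdet
  funext i
  have hbr : ∀ M : Matrix n n ℂ, br (g * X * g⁻¹) (g * M * g⁻¹) = g * br X M * g⁻¹ := by
    intro M
    have e1 : g * X * g⁻¹ * (g * M * g⁻¹) = g * (X * M) * g⁻¹ := by
      calc g * X * g⁻¹ * (g * M * g⁻¹) = g * X * (g⁻¹ * g) * M * g⁻¹ := by noncomm_ring
        _ = g * (X * M) * g⁻¹ := by rw [h1]; noncomm_ring
    have e2 : g * M * g⁻¹ * (g * X * g⁻¹) = g * (M * X) * g⁻¹ := by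
      calc g * M * g⁻¹ * (g * X * g⁻¹) = g * M * (g⁻¹ * g) * X * g⁻¹ := by noncomm_ring
        _ = g * (M * X) * g⁻¹ := by rw [h1]; noncomm_ring
    rw [br, br, e1, e2]
    noncomm_ring
  have hsum : br (g * X * g⁻¹) (∑ j, g⁻¹ j i • (g * ν j * g⁻¹)) =
      ∑ j, g⁻¹ j i • (g * br X (ν j) * g⁻¹) := by
    rw [br, Matrix.mul_sum, Matrix.sum_mul, ← Finset.sum_sub_distrib]
    apply Finset.sum_congr rfl
    intro j _
    rw [Matrix.mul_smul, Matrix.smul_mul, ← smul_sub, ← hbr, br]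
  have hco : ∀ l : n, ∑ m, (g * X * g⁻¹) m i * g⁻¹ l m = ∑ j, g⁻¹ j i * X l j := by
    intro l
    have e1 : (g⁻¹ * (g * X * g⁻¹)) l i = (X * g⁻¹) l i := by
      have : g⁻¹ * (g * X * g⁻¹) = X * g⁻¹ := by
        calc g⁻¹ * (g * X * g⁻¹) = (g⁻¹ * g) * X * g⁻¹ := by noncomm_ring
          _ = X * g⁻¹ := by rw [h1, Matrix.one_mul]
      rw [this]
    rw [Matrix.mul_apply, Matrix.mul_apply] at e1
    rw [show ∑ m, (g * X * g⁻¹) m i * g⁻¹ l m = ∑ m, g⁻¹ l m * (g * X * g⁻¹) m i from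
      Finset.sum_congr rfl (fun m _ => mul_comm _ _), e1]
    exact Finset.sum_congr rfl (fun m _ => mul_comm _ _)
  change ∑ j, g⁻¹ j i • (g * (br X (ν j) - ∑ l, X l j • ν l) * g⁻¹) =
    br (g * X * g⁻¹) (∑ j, g⁻¹ j i • (g * ν j * g⁻¹)) -
      ∑ m, (g * X * g⁻¹) m i • ∑ l, g⁻¹ l m • (g * ν l * g⁻¹)
  rw [hsum]
  have h2 : ∀ j : n, g⁻¹ j i • (g * (br X (ν j) - ∑ l, X l j • ν l) * g⁻¹) =
      g⁻¹ j i • (g * br X (ν j) * g⁻¹) - ∑ l, (g⁻¹ j i * X l j) • (g * ν l * g⁻¹) := by
    intro j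
    rw [Matrix.mul_sub, Matrix.sub_mul, smul_sub, Matrix.mul_sum, Matrix.sum_mul, Finset.smul_sum]
    congr 1
    apply Finset.sum_congr rfl
    intro l _
    rw [Matrix.mul_smul, Matrix.smul_mul, smul_smul]
  rw [Finset.sum_congr rfl (fun j _ => h2 j), Finset.sum_sub_distrib]
  congr 1
  have h3 : ∑ m, (g * X * g⁻¹) m i • ∑ l, g⁻¹ l m • (g * ν l * g⁻¹) =
      ∑ l, (∑ m, (g * X * g⁻¹) m i * g⁻¹ l m) • (g * ν l * g⁻¹) := by
    rw [Finset.sum_congr rfl (fun m _ => Finset.smul_sum), Finset.sum_comm]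
    apply Finset.sum_congr rfl
    intro l _
    rw [Finset.sum_smul]
    apply Finset.sum_congr rfl
    intro m _
    rw [smul_smul]
  rw [h3, Finset.sum_comm]
  apply Finset.sum_congr rfl
  intro l _
  rw [hco, Finset.sum_smul]

theorem gact_zero (g : Matrix n n ℂ) : gact g (0 : n → Matrix n n ℂ) = 0 := by
  funext i
  change ∑ j, g⁻¹ j i • (g * (0 : Matrix n n ℂ) * g⁻¹) = 0
  simp

theorem gact_diag (l : n → ℂ) (hl : ∀ i, l i ≠ 0) (ν : n → Matrix n n ℂ) (i k j : n) :
    gact (diagonal l) ν i k j = (l i)⁻¹ * (l k * ν i k j * (l j)⁻¹) := by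
  have hinv : (diagonal l : Matrix n n ℂ)⁻¹ = diagonal (fun i => (l i)⁻¹) := by
    apply Matrix.inv_eq_right_inv
    rw [diagonal_mul_diagonal]
    rw [show (fun i => l i * (l i)⁻¹) = fun _ => (1 : ℂ) from funext fun i => mul_inv_cancel₀ (hl i)]
    exact diagonal_one
  change (∑ m, (diagonal l : Matrix n n ℂ)⁻¹ m i • (diagonal l * ν m * (diagonal l)⁻¹)) k j = _
  rw [hinv, Finset.sum_eq_single i]
  · rw [diagonal_apply_eq, Matrix.smul_apply, smul_eq_mul, Matrix.mul_diagonal, Matrix.diagonal_mul]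
  · intro m _ hm
    rw [diagonal_apply_ne _ hm, zero_smul]
  · intro h
    exact absurd (Finset.mem_univ i) h

theorem dact_diag (d : n → ℂ) (ν : n → Matrix n n ℂ) (i k j : n) :
    dact (diagonal d) ν i k j = (d k - d j - d i) * ν i k j := by
  change (br (diagonal d) (ν i) - ∑ m, (diagonal d : Matrix n n ℂ) m i • ν m) k j = _
  rw [Finset.sum_eq_single i]
  · rw [diagonal_apply_eq, br, Matrix.sub_apply, Matrix.sub_apply, Matrix.smul_apply, smul_eq_mul,
      Matrix.mul_diagonal, Matrix.diagonal_mul]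
    ring
  · intro m _ hm
    rw [diagonal_apply_ne _ hm, zero_smul]
  · intro h
    exact absurd (Finset.mem_univ i) h

theorem pCPD (h1 : StCAL) : StCPD := by
  intro n _ _ μ P hP hμ
  obtain ⟨hmul, hone, -⟩ := h1 n
  have hH := hP.isHermitian
  set lam : n → ℝ := hH.eigenvalues with hlam
  have hpos : ∀ i, 0 < lam i := hP.eigenvalues_pos
  set U : Matrix n n ℂ := (hH.eigenvectorUnitary : Matrix n n ℂ) with hU
  have hUU : U * Uᴴ = 1 := Unitary.coe_mul_star_self hH.eigenvectorUnitary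
  have hUU' : Uᴴ * U = 1 := Unitary.coe_star_mul_self hH.eigenvectorUnitary
  have hinv : U⁻¹ = Uᴴ := Matrix.inv_eq_right_inv hUU
  have hUu : IsUnit U := ⟨⟨U, Uᴴ, hUU, hUU'⟩, rfl⟩
  have hUu' : IsUnit Uᴴ := ⟨⟨Uᴴ, U, hUU', hUU⟩, rfl⟩
  have hinv' : (Uᴴ)⁻¹ = U := Matrix.inv_eq_right_inv hUU'
  let l : n → ℂ := fun i => (lam i : ℂ)
  have hl0 : ∀ i, l i ≠ 0 := fun i => Complex.ofReal_ne_zero.2 (hpos i).ne'
  have hspec : P = U * diagonal l * Uᴴ := by
    have h2 := hH.spectral_theorem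
    rw [Unitary.conjStarAlgAut_apply] at h2
    exact h2
  let d : n → ℂ := fun i => ((Real.log (lam i) / 2 : ℝ) : ℂ)
  have hDu : IsUnit (diagonal l : Matrix n n ℂ) := by
    rw [Matrix.isUnit_iff_isUnit_det, det_diagonal]
    exact isUnit_iff_ne_zero.2 (Finset.prod_ne_zero_iff.2 fun i _ => hl0 i)
  set ν : n → Matrix n n ℂ := gact Uᴴ μ with hν
  have hμν : gact U ν = μ := by
    rw [hν, ← hmul U Uᴴ μ hUu hUu', hUU, hone]
  have hPu : IsUnit (U * diagonal l) := hUu.mul hDu
  have hDν : gact (diagonal l) ν = ν := by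
    have h2 : gact P μ = gact U (gact (diagonal l) ν) := by
      rw [hspec, hmul _ _ μ hPu hUu', ← hν, hmul _ _ ν hUu hDu]
    rw [hμ] at h2
    have h3 : gact Uᴴ μ = gact Uᴴ (gact U (gact (diagonal l) ν)) := by rw [← h2]
    rw [← hmul Uᴴ U _ hUu' hUu, hUU', hone, ← hν] at h3
    exact h3.symm
  have hdν : dact (diagonal d) ν = 0 := by
    funext i
    ext k j
    rw [dact_diag]
    by_cases h0 : ν i k j = 0
    · rw [h0, mul_zero]
      rfl
    · have h2 : gact (diagonal l) ν i k j = ν i k j := by rw [hDν]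
      rw [gact_diag l hl0] at h2
      have h3 : l k = l i * l j := by
        have h4 : (l i)⁻¹ * (l k * ν i k j * (l j)⁻¹) * (l i * l j) = ν i k j * (l i * l j) := by rw [h2]
        have h5 : (l i)⁻¹ * (l k * ν i k j * (l j)⁻¹) * (l i * l j) = l k * ν i k j := by
          have e1 := hl0 i
          have e2 := hl0 j
          field_simp
        rw [h5, mul_comm (ν i k j)] at h4
        exact mul_right_cancel₀ h0 h4
      have h4 : lam k = lam i * lam j := by
        have h5 : ((lam k : ℝ) : ℂ) = ((lam i * lam j : ℝ) : ℂ) := by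
          rw [Complex.ofReal_mul]
          exact h3
        exact Complex.ofReal_injective h5
      have h5 : Real.log (lam k) = Real.log (lam i) + Real.log (lam j) := by
        rw [h4, Real.log_mul (hpos i).ne' (hpos j).ne']
      have h6 : d k - d j - d i = 0 := by
        simp only [d]
        rw [h5]
        push_cast
        ring
      rw [h6, zero_mul]
      rfl
  refine ⟨U * diagonal d * Uᴴ, ?_, ?_, ?_⟩
  · apply isHermitian_mul_mul_conjTranspose
    rw [Matrix.IsHermitian, diagonal_conjTranspose]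
    congr 1
    funext i
    change star (d i) = d i
    simp only [d]
    exact Complex.conj_ofReal _
  · have h2 : NormedSpace.exp (U * diagonal d * Uᴴ) = U * diagonal (NormedSpace.exp d) * Uᴴ := by
      rw [← hinv, Matrix.exp_conj U _ hUu, Matrix.exp_diagonal]
    rw [h2, hspec]
    have h3 : U * diagonal (NormedSpace.exp d) * Uᴴ * (U * diagonal (NormedSpace.exp d) * Uᴴ) =
        U * (diagonal (NormedSpace.exp d) * diagonal (NormedSpace.exp d)) * Uᴴ := by
      calc U * diagonal (NormedSpace.exp d) * Uᴴ * (U * diagonal (NormedSpace.exp d) * Uᴴ) =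
          U * diagonal (NormedSpace.exp d) * (Uᴴ * U) * diagonal (NormedSpace.exp d) * Uᴴ := by
            noncomm_ring
        _ = _ := by rw [hUU']; noncomm_ring
    rw [h3, diagonal_mul_diagonal]
    congr 3
    funext i
    have h4 : (NormedSpace.exp d : n → ℂ) i = Complex.exp (d i) := by
      rw [Pi.coe_exp, Complex.exp_eq_exp_ℂ]
    change (NormedSpace.exp d : n → ℂ) i * (NormedSpace.exp d : n → ℂ) i = l i
    rw [h4, ← Complex.exp_add]
    have h5 : d i + d i = ((Real.log (lam i) : ℝ) : ℂ) := by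
      simp only [d]
      push_cast
      ring
    rw [h5, ← Complex.ofReal_exp, Real.exp_log (hpos i)]
  · have h2 := gact_dact U (diagonal d) hUu ν
    rw [hdν, gact_zero, hμν, hinv] at h2
    exact h2.symm

end Pool.Agent.Helper44.NO
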