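import Pool.Agent.Helper67.NO.St3

/-!
# Project NO (MP_26be5b_ag), module HPR: a nilpotent element of `L` is scaled by `L`
-/

set_option autoImplicit false

namespace Pool.Agent.Helper44.NO

open Pool.Agent.Helper67.NO
open Matrix
open scoped Matrix.Norms.Frobenius ContDiff Topology ComplexOrder

theorem tr_br {n : Type} [Fintype n] (W A Y : Matrix n n ℂ) :
    trace (W * br A Y) = trace (br W A * Y) := by
  rw [br, br, Matrix.mul_sub, Matrix.sub_mul, trace_sub, trace_sub]
  congr 1
  · rw [Matrix.mul_assoc]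
  · rw [← Matrix.mul_assoc, trace_mul_comm (W * Y) A, Matrix.mul_assoc]

theorem pHPR : StHPR := by
  intro ι _ _ L hlie hstar A hA hnil
  classical
  -- the trace pairing on `L`
  let Φ : L →ₗ[ℂ] Module.Dual ℂ L :=
    LinearMap.mk₂ ℂ (fun W Y => trace ((W : Matrix ι ι ℂ) * (Y : Matrix ι ι ℂ)))
      (fun a b c => by
        rw [Submodule.coe_add, Matrix.add_mul, trace_add])
      (fun c a b => by
        rw [Submodule.coe_smul, Matrix.smul_mul, trace_smul])
      (fun a b c => by
        rw [Submodule.coe_add, Matrix.mul_add, trace_add])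
      (fun c a b => by
        rw [Submodule.coe_smul, Matrix.mul_smul, trace_smul])
  have hΦ : ∀ W Y : L, Φ W Y = trace ((W : Matrix ι ι ℂ) * (Y : Matrix ι ι ℂ)) := fun W Y => rfl
  have hinj : Function.Injective Φ := by
    rw [injective_iff_map_eq_zero]
    intro W hW
    have h1 : Φ W ⟨(W : Matrix ι ι ℂ)ᴴ, hstar _ W.2⟩ = 0 := by rw [hW]; rfl
    rw [hΦ] at h1
    have h2 : (W : Matrix ι ι ℂ) = 0 := trace_mul_conjTranspose_self_eq_zero_iff.1 h1
    exact Subtype.ext h2
  have hsurj : Function.Surjective Φ :=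
    (LinearMap.injective_iff_surjective_of_finrank_eq_finrank
      (Subspace.dual_finrank_eq (K := ℂ) (V := L)).symm).1 hinj
  -- the map `Y ↦ [A, Y]`
  let T : L →ₗ[ℂ] L :=
    { toFun := fun Y => ⟨br A Y, hlie A hA Y Y.2⟩
      map_add' := fun a b => by
        apply Subtype.ext
        change br A ((a + b : L) : Matrix ι ι ℂ) = br A a + br A b
        rw [Submodule.coe_add, br, br, br, Matrix.mul_add, Matrix.add_mul]
        abel
      map_smul' := fun c a => by
        apply Subtype.ext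
        change br A ((c • a : L) : Matrix ι ι ℂ) = c • br A a
        rw [Submodule.coe_smul, br, br, Matrix.mul_smul, Matrix.smul_mul, smul_sub] }
  have hT : ∀ Y : L, ((T Y : L) : Matrix ι ι ℂ) = br A Y := fun Y => rfl
  by_cases hmem : (⟨A, hA⟩ : L) ∈ LinearMap.range T
  · obtain ⟨Y, hY⟩ := hmem
    have h1 : br A (Y : Matrix ι ι ℂ) = A := by
      rw [← hT, hY]
    refine ⟨-(Y : Matrix ι ι ℂ), L.neg_mem Y.2, ?_⟩
    have h2 : br (-(Y : Matrix ι ι ℂ)) A = br A (Y : Matrix ι ι ℂ) := by
      rw [br, br, Matrix.neg_mul, Matrix.mul_neg]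
      abel
    rw [h2, h1]
  · exfalso
    obtain ⟨f, hf1, hf2⟩ := Submodule.exists_dual_map_eq_bot_of_notMem hmem inferInstance
    obtain ⟨W, hW⟩ := hsurj f
    have h1 : ∀ Y : L, trace ((W : Matrix ι ι ℂ) * br A Y) = 0 := by
      intro Y
      have h2 : f (T Y) = 0 := by
        have h3 : f (T Y) ∈ Submodule.map f (LinearMap.range T) :=
          Submodule.mem_map_of_mem (LinearMap.mem_range_self T Y)
        rw [hf2] at h3
        exact (Submodule.mem_bot ℂ).1 h3
      rw [← hW, hΦ, hT] at h2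
      exact h2
    have hC : br (W : Matrix ι ι ℂ) A ∈ L := hlie _ W.2 A hA
    have h2 := h1 ⟨(br (W : Matrix ι ι ℂ) A)ᴴ, hstar _ hC⟩
    rw [tr_br] at h2
    have h3 : br (W : Matrix ι ι ℂ) A = 0 := trace_mul_conjTranspose_self_eq_zero_iff.1 h2
    have h4 : Commute (W : Matrix ι ι ℂ) A := by
      rw [br, sub_eq_zero] at h3
      exact h3
    have h5 : IsNilpotent ((W : Matrix ι ι ℂ) * A) := h4.isNilpotent_mul_left hnil
    have h6 : trace ((W : Matrix ι ι ℂ) * A) = 0 :=
      (Matrix.isNilpotent_trace_of_isNilpotent h5).eq_zero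
    apply hf1
    rw [← hW, hΦ]
    exact h6

end Pool.Agent.Helper44.NO
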